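import Pool.Agent.Lib.MP_b5d28a_nt.H33.Uniform

/-!
There is an absolute constant `C` such that, for every `s > 3`, the Moser polynomial `F_{s,k}`
has no integer root once `k ≥ s ^ (C ω(s))`, where `ω(s)` counts the primes dividing `s`.
-/

namespace Pool.Agent.Results.MP_b5d28a_nt.EveryS

open Pool.Agent.Lib.MP_b5d28a_nt

theorem result : ∃ C : ℕ, ∀ s k : ℕ, 3 < s → s ^ (C * s.primeFactors.card) ≤ k → ∀ n : ℤ,
    ∑ p ∈ Finset.Icc 1 s, (-1 : ℚ) ^ (p - 1) * (p : ℚ) ^ (k - 1) *
      ((∏ i ∈ Finset.range (s - p), ((n : ℚ) - i)) / ((s - p).factorial : ℚ)) ≠ 0 := by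
  obtain ⟨C, hC⟩ := H33.uniform
  refine ⟨C + 1, fun s k hs hk n hroot => ?_⟩
  have h0 : moser s k n = 0 := hroot
  rcases le_or_gt n 0 with h | h
  · exact absurd h0 (moser_ne_zero_of_nonpos (by omega) k (by exact_mod_cast h))
  · obtain ⟨m, rfl⟩ : ∃ m : ℕ, n = m := ⟨n.toNat, by omega⟩
    have h1 : moser s k (m : ℚ) = 0 := by exact_mod_cast h0
    rw [moser_nat] at h1
    have h2 : H s (k - 1) m = 0 := by
      have := (mul_eq_zero.mp h1).resolve_left (pow_ne_zero _ (by norm_num))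
      exact_mod_cast this
    have h3 : 1 ≤ s.primeFactors.card :=
      Finset.card_pos.mpr (Nat.nonempty_primeFactors.mpr (by omega))
    have h4 : s ^ (C * s.primeFactors.card) < s ^ ((C + 1) * s.primeFactors.card) :=
      Nat.pow_lt_pow_right (by omega) (by rw [add_mul]; omega)
    exact hC s (k - 1) m hs (by omega) h2

end Pool.Agent.Results.MP_b5d28a_nt.EveryS
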