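import Pool.Agent.Lib.MP_b5d28a_nt.H33.Near

/-!
For every `d` and all large `k`, an integer root `n ≤ k + d` of the Moser polynomial `F_{s,k}`
is trivial or equals `2 s`, whatever `s` is.
-/

namespace Pool.Agent.Results.MP_b5d28a_nt.NearIndex

open Pool.Agent.Lib.MP_b5d28a_nt

theorem result (d : ℕ) : ∃ K : ℕ, ∀ (s k : ℕ) (n : ℤ), 1 ≤ s → K ≤ k → n ≤ k + d →
    ∑ p ∈ Finset.Icc 1 s, (-1 : ℚ) ^ (p - 1) * (p : ℚ) ^ (k - 1) *
      ((∏ i ∈ Finset.range (s - p), ((n : ℚ) - i)) / ((s - p).factorial : ℚ)) = 0 →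
    (1 ≤ n ∧ n ≤ s) ∨ n = 2 * s := by
  obtain ⟨E, hE⟩ := Filter.eventually_atTop.mp (H33.near_all d)
  refine ⟨E + 1, fun s k n hs hk hn hroot => ?_⟩
  have h0 : moser s k n = 0 := hroot
  by_contra hno
  rcases le_or_gt n 0 with h | h
  · exact absurd h0 (moser_ne_zero_of_nonpos hs k (by exact_mod_cast h))
  · obtain ⟨m, rfl⟩ : ∃ m : ℕ, n = m := ⟨n.toNat, by omega⟩
    have h1 : moser s k (m : ℚ) = 0 := by exact_mod_cast h0
    rw [moser_nat] at h1
    have h2 : H s (k - 1) m = 0 := by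
      have := (mul_eq_zero.mp h1).resolve_left (pow_ne_zero _ (by norm_num))
      exact_mod_cast this
    exact hE (k - 1) (by omega) s m hs (by omega) (by omega) (by omega) h2

end Pool.Agent.Results.MP_b5d28a_nt.NearIndex
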