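import Pool.Agent.Lib.MP_b5d28a_nt.H6.Bern

/-!
The Moser polynomial `F_{s,k}` has no integer root when `k ≥ 3 s^2` and no prime `l ≥ 5` dividing
`s` divides the numerator of the Bernoulli number of index `2 ⌊k/2⌋ - 2`.
In particular `k_max(s) < 3 s^2` for all `s = 2^a 3^b > 3`.
-/

namespace Pool.Agent.Results.MP_b5d28a_nt.QuadraticBound

open Pool.Agent.Lib.MP_b5d28a_nt.H6

theorem result (s k : ℕ) (hs : 3 < s) (hk : 3 * s ^ 2 ≤ k)
    (hB : ∀ l : ℕ, l.Prime → 5 ≤ l → l ∣ s → ¬ (l : ℤ) ∣ (bernoulli (2 * (k / 2) - 2)).num)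
    (n : ℤ) :
    ∑ p ∈ Finset.Icc 1 s, (-1 : ℚ) ^ (p - 1) * (p : ℚ) ^ (k - 1) *
      ((∏ i ∈ Finset.range (s - p), ((n : ℚ) - i)) / ((s - p).factorial : ℚ)) ≠ 0 :=
  final (by omega) (bern hs hk hB) n

end Pool.Agent.Results.MP_b5d28a_nt.QuadraticBound
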