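import Pool.Agent.Lib.MP_b5d28a_nt.H6.All

/-!
The Moser polynomial `F_{s,k}` has no integer root when `4 ≤ s ≤ 70` and `k ≥ 2 s`.
-/

namespace Pool.Agent.Results.MP_b5d28a_nt.UpToSeventy

open Pool.Agent.Lib.MP_b5d28a_nt.H6

theorem result (s k : ℕ) (hs : 3 < s) (hs' : s ≤ 70) (hk : 2 * s ≤ k) (n : ℤ) :
    ∑ p ∈ Finset.Icc 1 s, (-1 : ℚ) ^ (p - 1) * (p : ℚ) ^ (k - 1) *
      ((∏ i ∈ Finset.range (s - p), ((n : ℚ) - i)) / ((s - p).factorial : ℚ)) ≠ 0 :=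
  final (by omega) (all s hs hs' (k - 1) (by omega)) n

end Pool.Agent.Results.MP_b5d28a_nt.UpToSeventy
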